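import Pool.Agent.T6.H56.TSW.AsmW
import Pool.Agent.T6.H56.TSG.PRO
import Pool.Agent.T6.H56.TSG.POW
import Pool.Agent.T6.H56.TSG.ISO
import Pool.Agent.T6.H56.TSG.UNI
import Pool.Agent.T6.H56.TSG.RED
import Pool.Agent.Y230.TL.A
import Pool.Agent.Y230.TL.U
import Pool.Agent.Y64.TL.ExpB
import Pool.Agent.Y475.TL.L
import Pool.Agent.Y448.TL.J

/-!
# The monodromy conjecture at the origin for read-once formulas in plane curves and forms over ideals

Let `f` be a germ at the origin with the numerical data `(N_i, ν_i)` of an embedded resolution, and let
`Z^(e)(s) = ∑_S χ(E_S° ∩ h⁻¹(0)) ∏_{i ∈ S} 1 / (N_i s + ν_i)`, the sum over all `S ≠ ∅` such that `e` divides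
all `N_i`, `i ∈ S`, be its local topological zeta functions (Denef and Loeser); `Z^(1)` is the usual one.

We prove for all germs of hypersurfaces in the class `RO (IdW n) HoldsW`: for every pole `s₀` of one of the
functions `Z^(e)`, `e ≥ 1`, there is an integer `i ≥ 0` such that `s₀ - i` is a root of the local
Bernstein-Sato polynomial `b`, so that `exp(2 π i s₀)` is an eigenvalue of the monodromy at points near
the origin (Malgrange, Kashiwara). If `s₀` is a pole of `(s + 1) Z^(1)` or of `Z^(e)`, `e ≥ 2`, then `s₀ - i` is a
root of `q = b / (s + 1)` (this corresponds to the eigenvalues of the monodromy on the reduced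
cohomology of the Milnor fibres).

The class contains

* all germs for which this is true, for `(s + 1) Z^(1)` and `Z^(e)`, `e ≥ 2` (`HoldsW`);
* the plane curves `g = 0`, `g(0) = 0`, `g` an arbitrary polynomial (not necessarily reduced), with at
  least two branches at the origin (`Reducible`), or such that the functions `(s + 1) Z^(1)` and `Z^(e)`,
  `e ≥ 2`, have no pole at `-1`, which is well known if there is only one branch;
* the weighted homogeneous polynomials with an isolated critical point;
* the linear forms `∑ y_j f_j(x)` over all ideals `(f_j)` in the class `IdW n` (below),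

and it is closed under

* **sums `f(x) + g(z)` of any two members of the class**, in disjoint sets of variables, and more
  generally `f + g + c f g`, `c ∈ ℂ`: the functions `Z^(e)` of the sum are given by the Thom-Sebastiani
  formula (`sumZ`), in which all the functions `Z^(i)` of `f` and `Z^(j)` of `g` occur;
* products `f(x) g(z)` in disjoint sets of variables, powers `f ^ a`, multiplication with polynomials
  `U`, `U(0) ≠ 0`, renaming, adding and dropping variables,

in any order and number. So the conjecture, in this form, passes from `f` and `g` to `f(x) + g(z)`,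
`f + g + c f g`, `f(x) g(z)`, `f ^ a`. The class is closed under read-once formulas at all points: if `A(x)`, `B(z)` are
polynomials such that the germs of `A - A(p)` at `p` and of `B - B(q)` at `q` are in the class, then the
same holds for the germs of `A + B` and `A B` at `(p, q)`, and of `A ^ k` at `p`.

The ideals: `IdW 0` is the class of the ideals of `WeightedConesLocal`, which contains the principal
ideals generated by polynomials of any number of variables which are nondegenerate with respect to
their Newton polytope, all ideals of `ℂ[x, y]`, determinantal ideals, ideals with Rees divisors,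
weighted cones, and is closed under several operations; and `IdW (n + 1)` is obtained in the same
way if also the hypersurfaces in `RO (IdW n) HoldsW` are allowed.

The main step of the proof (`rf_kap`): call `α` a reduced forced root of `f` at a point `p`, if
`B(p, α) = 0` for all equations `(s + 1) B(x, s) f ^ s = P(s) f ^ (s + 1)` with polynomials `B(x, s)`. If
`α`, `β` are reduced forced roots of `f` at `p` and of `g` at `q`, where `f, g ≠ 0` are arbitrary, then
`α + β` is a reduced forced root of `f(x) + g(z) + c f(x) g(z)` at `(p, q)`. The reduced forced roots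
are the roots of the reduced local Bernstein-Sato polynomial (`exists_red`). For powers we use: if
`a s + j`, `0 ≤ j < a`, is a reduced forced root of `f`, then `s` is one of `f ^ a` (`pow_shift`).
-/

set_option autoImplicit false

namespace Pool.Agent.Results.MP_aa7fc1_ag.ReadOnceLocal

open MvPolynomial Pool.Agent.W574.RO Pool.Agent.H628R4.TP Pool.Agent.Y229
  Pool.Agent.T6.H56.TSG Pool.Agent.T6.H56.TSW

/-- **The monodromy conjecture at the origin for read-once formulas in plane curves and in forms over
ideals, for all twisted topological zeta functions.**

Let the germ of the hypersurface `F` be in the class `RO (IdW n) HoldsW`, with the local topological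
zeta functions `Z e = Z^(e)`, `e ≥ 1`; so it is obtained by sums `f(x) + g(z)` (and `f + g + c f g`),
products and powers in disjoint sets of variables and multiplication with units, from all the germs
for which the result is true (`HoldsW`), plane curves, linear forms `∑ y_j f_j(x)` over ideals, and
weighted homogeneous polynomials with an isolated critical point. Let
`b` satisfy a functional equation `b(s) F ^ s = P(s) F ^ (s + 1)`, where `P(s)` is a differential operator
with formal power series coefficients, for example the local Bernstein-Sato polynomial. Then for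
every pole `s₀` of `Z^(e)`, `e ≥ 1`, there is an integer `i ≥ 0` with `b(s₀ - i) = 0`, so that
`exp(2 π i s₀)` is an eigenvalue of the monodromy of `F` at points of `F = 0` near the origin, by the
theorem of Malgrange and Kashiwara. Moreover `b = (s + 1) q`, and `q(s₀ - i) = 0` for some integer
`i ≥ 0`, if `s₀` is a pole of `(s + 1) Z^(1)` or of `Z^(e)`, `e ≥ 2`. -/
theorem result (n : ℕ) (σ : Type) (F : MvPolynomial σ ℂ) (Z : ℕ → RatFunc ℂ)
    (h : RO (IdW n) HoldsW σ F Z) (b : Polynomial ℂ) (hb : IsLocalBFunction F b) :
    (∀ e, 1 ≤ e → ∀ s₀ : ℂ, (Z e).denom.eval s₀ = 0 → ∃ i : ℕ, b.eval (s₀ - i) = 0) ∧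
    ∃ q : Polynomial ℂ, b = (Polynomial.X + 1) * q ∧
      (∀ s₀ : ℂ, ((RatFunc.X + 1) * Z 1).denom.eval s₀ = 0 → ∃ i : ℕ, q.eval (s₀ - i) = 0) ∧
      ∀ e, 2 ≤ e → ∀ s₀ : ℂ, (Z e).denom.eval s₀ = 0 → ∃ i : ℕ, q.eval (s₀ - i) = 0 := by
  have O : Ops := ⟨Pool.Agent.Y448.TL.tJ Pool.Agent.Y230.TL.tA Pool.Agent.Y64.TL.tB,
    Pool.Agent.Y230.TL.tU Pool.Agent.Y64.TL.tB, Pool.Agent.Y475.TL.tL, pro, pow_, iso, uni, red⟩
  exact ro_weak O n σ F Z h b hb

end Pool.Agent.Results.MP_aa7fc1_ag.ReadOnceLocal
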