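import Pool.Agent.T6.H26.DC.D
import Pool.Agent.Y230.TL.A
import Pool.Agent.Y230.TL.U
import Pool.Agent.Y64.TL.ExpB
import Pool.Agent.Y475.TL.L
import Pool.Agent.Y448.TL.J

/-!
# The monodromy conjecture at the origin for real weighted cones with a definite factor

Let `F = g p ^ m`, `m > 0`, where `g ≠ 0` and `p` are weighted homogeneous polynomials with real
coefficients (with weights `w_i > 0`, of the degrees `dg` and `dp > 0`), and `p` is definite: positive at
all points `x ≠ 0` of `ℝ ^ (n + 1)`. Let `d = dg + m dp`. The exceptional divisor of the weighted blow-up
of the origin gives the candidate pole `-(∑ w_i) / d` of the local topological zeta function of `F`. We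
prove that every polynomial `b` with a functional equation `b(s) F ^ s = P(s) F ^ (s + 1)` has a root
in `-(∑ w_i) / d + ℤ` (`rcone_root`). The other poles come from the germs of `F` at the points `a ≠ 0`
of `ℂ ^ (n + 1)`. So the conjecture holds for `F` at the origin if it holds for these germs, in the strong
sense that is needed here (`RCone`). For instance, it holds for all `F = g p ^ m`, where `g` and `p` are
forms in three variables with real coefficients and `p` is definite (like `x ^ 2 + y ^ 2 + z ^ 2`): the
germs at the points `a ≠ 0` are plane curves. The set `{F = 0}` may have arbitrary, not isolated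
singularities.

The class `TR k` contains the germs in `WeakD` (products of determinantal ideals, all ideals of
`ℂ[x, y]`, products of linear ideals, ideals with Rees divisors, polynomials which are nondegenerate with
respect to their Newton polyhedron) and in `WeakHyp`, and is closed under the operations of `TQ` (sums
and products in disjoint sets of variables, `∑ y_j f_j(x)`, `∑ y_j f_j(x) + g(z)`, products of powers
of forms, powers, dropping variables), the weighted cones `WCone` of ideals, and the real weighted cones
`RCone`, which may be nested.

The proof of `rcone_root`. On the open set `g > 0` of `ℝ ^ (n + 1)` consider the integral of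
`F ^ s H` over a neighbourhood of `0`, where `H = g ^ a p ^ e` is such that `g` occurs in `F ^ s H` with an
exponent `≥ 0` for the `s` in question. As `p` is definite, the integral converges for
`s > -(∑ w_i) / d - k`, and diverges at this number, where `d k` is the degree of `H`. The functional
equation gives the analytic continuation, with poles only at the numbers `z - j`, `z` a root of `b` and
`j ≥ 0` (`rootW`). The other poles: `sf_slice`, `sf_orbit`.
-/

set_option autoImplicit false

namespace Pool.Agent.Results.MP_aa7fc1_ag.RealConesLocal

open MvPolynomial Pool.Agent.W574.SM Pool.Agent.W574.RO Pool.Agent.H628R4.TP Pool.Agent.TH192.DT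
  Pool.Agent.Y229 Pool.Agent.Y230.TL Pool.Agent.T6.H26 Pool.Agent.T6.H26.DC

/-- **The monodromy conjecture at the origin: real weighted cones with a definite factor.** Let
`TR k c A Z` be the classes of germs at the origin of ideals (`c = false`) and of hypersurfaces
(`c = true`), given by generators `A`, with their local topological zeta functions `Z`, which are
obtained from the germs in `WeakD` and the hypersurfaces in `WeakHyp` by the operations of `TQ`, by the
weighted cones `WCone` and by the real weighted cones with a definite factor `RCone`, nested at most
`k` times. Let the hypersurface `F` be in the class, let `s₀` be a pole of `Z`, and let `b` satisfy a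
functional equation `b(s) F ^ s = P(s) F ^ (s + 1)`, where `P(s)` is a differential operator with formal
power series coefficients, for example the local Bernstein-Sato polynomial. Then `b(s₀ + l) = 0` for
some integer `l`. By the theorem of Malgrange and Kashiwara, `exp(2 π i s₀)` is an eigenvalue of the
monodromy of `F` at points of `F = 0` near the origin. -/
theorem result (k : ℕ) (c : Bool) (σ : Type) (F : MvPolynomial σ ℂ) (Z : RatFunc ℂ)
    (h : TR k c ⟨σ, Fin 1, fun _ => F⟩ Z) (b : Polynomial ℂ) (hb : IsLocalBFunction F b) (s₀ : ℂ)
    (hs : Z.denom.eval s₀ = 0) : ∃ l : ℤ, b.eval (s₀ + (l : ℂ)) = 0 := by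
  classical
  have hJ : StJ := Pool.Agent.Y448.TL.tJ tA Pool.Agent.Y64.TL.tB
  have hU : StU := tU Pool.Agent.Y64.TL.tB
  have hL : StL := Pool.Agent.Y475.TL.tL
  exact tr_weak hJ hU hL k c F Z h b hb s₀ hs

end Pool.Agent.Results.MP_aa7fc1_ag.RealConesLocal
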