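import Pool.Agent.T6.H26.RX.E

set_option autoImplicit false

/-! # The monodromy conjecture at the origin for products of powers of real diagonal polynomials

Let `a_1, ..., a_n ≥ 2` and `f = ∏ h, (c_{h,1} x_1 ^ a_1 + ... + c_{h,n} x_n ^ a_n) ^ m_h`, with real
`c_{h,i}` (`diagProd`); if all `a_i = 2` this is a product of powers of quadratic forms which are
diagonal in the same basis. The hypersurface is the pull-back of the arrangement of the hyperplanes
`c_h = 0` under the map `y_i = x_i ^ a_i`; its singularities are in general not isolated, and `f` is
in general degenerate with respect to its Newton polyhedron.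

Let `B` be the arrangement of the hyperplanes `c_h = 0` and `y_i = 0` (`bt c` is the family of these
linear forms), and let `W` be its minimal wonderful model (De Concini and Procesi): its components
`E_G` belong to the irreducible flats `G` of `B` (`IsIrr`; we describe a flat by the space `G` of the
linear forms which vanish on it). Let `X` be the normalization of the fibre product of `W` and `ℂ ^ n`
over the map `y_i = x_i ^ a_i`; it is a toroidal (abelian quotient) embedded resolution of `f`. Over
`E_G` the multiplicity of `f` is `N_G = e m(G)`, and `ν_G = e (rank G - c(G)) + ∑ e / a_i`, the sum over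
the `c(G)` coordinates `y_i ∈ G` (`cc`), where `m(G)` is the sum of the `m_h` with `c_h ∈ G` (`mu`), and
`e` is the least common multiple of the `a_i` with `y_i ∈ G` (`el`, `nuG`, `nG`). A toric resolution of
`X` gives an embedded resolution, and the local topological zeta function of `f` is
`∑ χ_S ∏_{G ∈ S} 1 / (N_G s + ν_G)`, the sum over the sets `S` of flats, with `χ_S` the Euler
characteristic of the stratum over the origin, times the order of the local group.

The proof. Let `G` be an irreducible flat and `c_0 ∈ G` one of the forms `c_h`. There is a chamber of
the forms in `G` which meets the hyperplane `c_0 = 0` only in the centre of `G` (`bounded_chamber`).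
In this chamber all forms of `G` are bounded by multiples of `c_0` (`cmp`). So the convergence of the
integral of `f ^ s H` over this chamber, `H` a product of powers of the forms, depends only on the
power of `c_0`, if the other forms occur in `f ^ s H` with exponents `≥ 0`; with a suitable `H` it
converges for `s > -ν_G / N_G - k` and diverges at `-ν_G / N_G - k`, for an integer `k`
(`crit_posW`). A functional equation of `f` gives the analytic continuation of the integral, with
poles only at the numbers `z - j`, `z` a root of `b`, `j ≥ 0` (`rootSW`; one takes the sum over the
translates of the chamber by roots of unity, so that there are no terms from the hyperplanes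
`x_i = 0`). So `b` has a root in `-ν_G / N_G + ℤ`. -/

namespace Pool.Agent.Results.MP_aa7fc1_ag.RealDiagonalProducts

open Pool.Agent.H628R4.TP Pool.Agent.TH192.DT Pool.Agent.T6.H16.RA Pool.Agent.T6.H16.RW
  Pool.Agent.T6.H26.RX

/-- **The monodromy conjecture at the origin for products of powers of real diagonal polynomials.**
Let `f = ∏ h, (∑ i, c_{h,i} x_i ^ a_i) ^ m_h` with exponents `a_i ≥ 2`, real `c_{h,i}`, all `c_h` not
zero, and `m_h > 0`. Let `s₀` be a pole of the local topological zeta function of `f` at the origin
(the components `E_{G i}`, `i ∈ I`, belong to irreducible flats `G i`; the integers `χ` are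
arbitrary), and let `b` satisfy a functional equation `b(s) f ^ s = P(s) f ^ (s + 1)`, where `P(s)`
is a differential operator with formal power series coefficients, for example the local
Bernstein-Sato polynomial of `f` at the origin. Then `b(s₀ + l) = 0` for some integer `l`. By the
theorem of Malgrange and Kashiwara, `exp(2 π i s₀)` is an eigenvalue of the monodromy of `f` at some
point of `{f = 0}` near the origin. -/
theorem result {n : ℕ} {ι I : Type} [Fintype ι] [Fintype I] (c : ι → Fin n → ℝ) (m : ι → ℕ)
    (a : Fin n → ℕ) (ha : ∀ i, 2 ≤ a i) (hc : ∀ h, c h ≠ 0) (hm : ∀ h, 0 < m h)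
    (G : I → Submodule ℝ (Fin n → ℝ)) (hG : ∀ i, IsIrr (bt c) (G i)) (χ : Finset I → ℤ) (s₀ : ℂ)
    (hs : (topZ (fun i => nuG a (G i)) (fun i => nG c m a (G i)) χ).denom.eval s₀ = 0)
    (b : Polynomial ℂ) (hb : IsLocalBFunction (diagProd c m a) b) :
    ∃ l : ℤ, b.eval (s₀ + (l : ℂ)) = 0 := by
  classical
  exact poles_weak ha hc hm G hG χ s₀ hs b hb

end Pool.Agent.Results.MP_aa7fc1_ag.RealDiagonalProducts
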