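import Pool.Agent.T6.H26.LCMain
import Pool.Agent.Y230.TL.A
import Pool.Agent.Y230.TL.U
import Pool.Agent.Y64.TL.ExpB
import Pool.Agent.Y475.TL.L
import Pool.Agent.Y448.TL.J

/-!
# The monodromy conjecture at the origin for weighted cones and for sums of determinantal forms

We prove: every pole `s₀` of the local topological zeta function at the origin is of the form `α + i`,
where `α` is a root of the local Bernstein-Sato polynomial and `i ≥ 0` an integer, so that
`exp(2 π i s₀)` is an eigenvalue of the monodromy at points near the origin (Malgrange, Kashiwara), for
the germs of hypersurfaces in the least classes with the following properties.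

* *Determinantal germs.* The classes contain the products of ideals of minors of a generic or
  symmetric matrix of variables (of Pfaffians of a skew symmetric matrix), the products of ideals of
  the maximal minors of Hankel matrices (the cones over the secant varieties of the rational normal
  curve) (`DetL`), and the germs which were known before (`WeakL`, `WeakHyp`): all ideals of `ℂ[x, y]`,
  monomial ideals `(x ^ m)`, products of linear ideals, ideals with Rees divisors, and the polynomials which are
  nondegenerate with respect to their Newton polyhedron.
* *Operations.* The classes are closed under sums and products in disjoint sets of variables,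
  `∑ y_j f_j(x)`, Thom-Sebastiani sums `∑ y_j f_j(x) + g(z)`, products of powers of forms
  `h(x) ∏_t (∑_j y_{t,j} f_{t,j}(x)) ^ a_t`, powers, and dropping variables (`TQ`).
* *Weighted cones* (`WCone`). Let `f_1, …, f_r` be weighted homogeneous of the same degree `d > 0` for
  weights `w_i ≥ 0` which are not all zero, such that the Jacobian determinant of the variables of weight
  zero and of some of the `f_j` is not zero. If the germs of the ideal `(f_j)` on hyperplanes
  transversal to the orbits of the points `a ≠ 0`, whose coordinates of weight zero are zero, are in
  the class (and tame, if the stabiliser of `a` is not trivial), then the germ of `(f_j)` at the origin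
  is in the class. The operations and the cones may be nested (`TW`).

So for instance the conjecture holds for `F = ∑_j y_j f_j(x) + g(z)`, if `g` is a plane curve or a
nondegenerate polynomial (with at most a simple pole at `-1`, and no pole at the integers `≥ 0`), and the
`f_j` are forms of the same degree in `x_0, x_1` with coefficients in
`ℂ[x_2]` and `f_1, f_2, x_2` are algebraically independent (the weights `1, 1, 0`; the transversal germs are
ideals in two variables); or if the `f_j` are the products of minors of given sizes of a matrix of
variables. No point `a` with a trivial stabiliser needs the condition on tameness (`tame_of_le_one`).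

The proof. The new exceptional divisor of the weighted blow-up gives the candidate pole
`-(∑ w_i) / d`; it is a root of the Bernstein-Sato polynomial because of the condition on the Jacobian
determinant (`wrootL`): the homogeneous component of degree zero of the functional equation, applied to
polynomials, contradicts this condition. The other poles are poles `s` of the zeta functions of the
germs at `a ≠ 0`; by the restriction of functional equations to transversal hyperplanes (`sf_slice`)
`B(c • a, s) = 0` for all `c ≠ 0` and all functional equations `B(x, s) f ^ s = …`, so that
`B(0, s) = 0` (`sf_orbit`). So the statement that every pole `s` of `Z` satisfies `B(0, s) = 0` for all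
functional equations is preserved by all the operations.
-/

set_option autoImplicit false

namespace Pool.Agent.Results.MP_aa7fc1_ag.WeightedConesLocal

open MvPolynomial Pool.Agent.W574.SM Pool.Agent.W574.RO Pool.Agent.H628R4.TP Pool.Agent.TH192.DT
  Pool.Agent.Y229 Pool.Agent.Y230.TL Pool.Agent.T6.H26

/-- **The monodromy conjecture at the origin: weighted cones, determinantal germs, and
Thom-Sebastiani sums.** Let `TW WeakD WeakHyp k c A Z` be the classes of germs at the origin of
ideals (`c = false`) and of hypersurfaces (`c = true`), given by generators `A`, with their local
topological zeta functions `Z`, which are obtained from the germs in `WeakD` and the hypersurfaces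
in `WeakHyp` by the operations of `TQ` (sums and products in disjoint sets of variables,
`∑ y_j f_j(x)`, `∑ y_j f_j(x) + g(z)`, `h(x) ∏_t (∑_j y_{t,j} f_{t,j}(x)) ^ a_t`, powers, dropping
variables), and by weighted cones, which are nested at most `k` times.

Let the hypersurface `F` be in the class, let `s₀` be a pole of `Z`, and let `b` satisfy a functional
equation `b(s) F ^ s = P(s) F ^ (s + 1)`, where `P(s)` is a differential operator with formal power
series coefficients, for example the local Bernstein-Sato polynomial. Then `b(s₀ - i) = 0` for some
integer `i ≥ 0`. By the theorem of Malgrange and Kashiwara, `exp(2 π i s₀)` is an eigenvalue of the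
monodromy of `F` at points of `F = 0` near the origin. -/
theorem result (k : ℕ) (c : Bool) (σ : Type) (F : MvPolynomial σ ℂ) (Z : RatFunc ℂ)
    (h : TW WeakD WeakHyp k c ⟨σ, Fin 1, fun _ => F⟩ Z) (b : Polynomial ℂ)
    (hb : IsLocalBFunction F b) (s₀ : ℂ) (hs : Z.denom.eval s₀ = 0) :
    ∃ i : ℕ, b.eval (s₀ - i) = 0 := by
  classical
  have hJ : StJ := Pool.Agent.Y448.TL.tJ tA Pool.Agent.Y64.TL.tB
  have hU : StU := tU Pool.Agent.Y64.TL.tB
  have hL : StL := Pool.Agent.Y475.TL.tL
  exact tw_weak hJ hU hL k c F Z h b hb s₀ hs

end Pool.Agent.Results.MP_aa7fc1_ag.WeightedConesLocal
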